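import Pool.Agent.helper55.NK.Spec

/-!
# Project NF (MP_7e34bc_co, Q2): `N(n,k) = M(n,k)` for all `n ≥ 4 k` (NK of helper55 has `n ≥ 10 k`)

RULES. Row `nf:XXX`: file `Pool/Agent/<seat>/NF/XXX.lean`, `import Pool.Agent.helper37.NF.Spec` (BIG2, MO4, CH4 also `import Pool.Agent.helper55.NK.Base`), `set_option autoImplicit false`,
`namespace Pool.Agent.helper37.NF`, `open Finset Pool.Agent.NK`, theorem line as in the note (the other rows are hypotheses, so all rows are independent); auxiliary lemmas with prefix `XXX_`.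
Mathlib only, no native_decide (`decide +kernel` is fine). A FALSE or awkward statement: one line to helper37 at once.
-/

set_option autoImplicit false

namespace Pool.Agent.helper37.NF

open Finset Pool.Agent.NK

/-- `C(4i, i)` -/
def cc (i : ℕ) : ℕ := (4 * i).choose i

/-- the ratio `cc (i+1) / cc i` -/
noncomputable def rho (x : ℝ) : ℝ :=
  4 * (4 * x + 1) * (4 * x + 2) * (4 * x + 3) / ((3 * x + 1) * (3 * x + 2) * (3 * x + 3))

/-- **AVG** (short). Induction on `a + b` from `N`. Step `n ≥ N ≥ t = i + j`, `a + b = n + 1`: `a C(a-1,i) = (a - i) C(a,i)` and `b C(b-1,j) = (b - j) C(b,j)` (real numbers; both sides of the first are 0 if `a ≤ i`... `Nat.choose_mul_succ_eq`), so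
`(n + 1 - t) C(a,i) C(b,j) = a C(a-1,i) C(b,j) + b C(a,i) C(b-1,j) ≤ (a + b) κ C(n,t) = κ (n + 1) C(n,t) = κ (n + 1 - t) C(n+1,t)`; divide by `n + 1 - t > 0`. -/
def AVG_stmt : Prop := ∀ (i j N : ℕ) (κ : ℝ), 1 ≤ i → 1 ≤ j → i + j ≤ N →
  (∀ a b : ℕ, a + b = N → (a.choose i : ℝ) * (b.choose j : ℝ) ≤ κ * (N.choose (i + j) : ℝ)) →
  ∀ a b : ℕ, N ≤ a + b → (a.choose i : ℝ) * (b.choose j : ℝ) ≤ κ * ((a + b).choose (i + j) : ℝ)

/-- **BAS** (short, from UNI of helper55/NK/Spec). `i (4 (i+j) + 1) / (i+j) = 4 i` as `i < i + j`. -/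
def BAS_stmt : Prop := ∀ a b i j : ℕ, 1 ≤ i → 1 ≤ j → a + b = 4 * (i + j) →
  a.choose i * b.choose j ≤ cc i * cc j

/-- **REC** (short). `cc i * i! * (3i)! = (4i)!` (`Nat.choose_mul_factorial_mul_factorial`), the same for `i + 1`, `Nat.factorial_succ`; `(4i+4)/(i+1) = 4`. -/
def REC_stmt : Prop := ∀ i : ℕ, (cc (i + 1) : ℝ) = rho i * cc i

/-- **LCX** (short-medium, from REC). `rho` is monotone on the nonnegative reals: each factor `(4x+1)/(3x+1)`, `(4x+2)/(3x+2)`, `(4x+3)/(3x+3)` is. Wlog `i ≤ j`; induction on `i`: for `3 ≤ i ≤ j`,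
`cc i cc j = rho (i-1) cc (i-1) cc j ≤ rho j cc (i-1) cc j = cc (i-1) cc (j+1)`. `cc 2 = 28`. -/
def LCX_stmt : Prop := ∀ i j : ℕ, 2 ≤ i → 2 ≤ j → cc i * cc j ≤ 28 * cc (i + j - 2)

/-- **NUM** (short). `t = s + 3`. `9 ≤ s ≤ 46`: `interval_cases s`, unfold `rho`, `norm_num` (38 rational inequalities, all checked). `s ≥ 47`: `rho s ≥ 9.38` (cross-multiply: `2.74 s³ - 122.52 s² - 133.54 s - 32.28 ≥ 0`), so also
`rho (s+1), rho (s+2) ≥ 9.38`, the last fraction is at most `1/9`, and `28/9.38^2 + (4/9.38)/9 = 0.36562.. ≤ 0.3678 ≤` right side (EXP of helper55/NK/Spec with `t = s + 3`). -/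
def NUM_stmt : Prop := ∀ s : ℕ, 9 ≤ s →
  28 / (rho ((s + 1 : ℕ) : ℝ) * rho ((s + 2 : ℕ) : ℝ)) +
    4 / rho (s : ℝ) * (((s : ℝ) + 3) * ((s : ℝ) + 2) / ((3 * (s : ℝ) + 11) * (3 * (s : ℝ) + 10))) ≤
  (1 - 1 / ((s + 3 : ℕ) : ℝ)) ^ (s + 2)

/-- **BG1** (short-medium, from AVG, BAS, REC, LCX). `N = 4 (i + j)`, `t = i + j = s + 3`, `N.choose t = cc t`; `κ = 28 / (rho (s+1) rho (s+2))`; `cc t = rho (s+2) rho (s+1) cc (s+1)` (REC twice), so `κ * cc t = 28 cc (t-2) ≥ cc i cc j ≥ C(a,i) C(b,j)` for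
`a + b = N`. Then AVG. -/
def BG1_stmt : Prop := ∀ a b i j s : ℕ, 2 ≤ i → 2 ≤ j → i + j = s + 3 → 4 * (i + j) ≤ a + b →
  (a.choose i : ℝ) * (b.choose j : ℝ) ≤
    28 / (rho ((s + 1 : ℕ) : ℝ) * rho ((s + 2 : ℕ) : ℝ)) * ((a + b).choose (i + j) : ℝ)

/-- **BG2** (short-medium, from AVG, BAS, REC). `q = (n+1)/(s+1) ≤ n` (if `s ≥ 1`), `MV n (s+1) = C(q,1) C(n-q,s)`; AVG with `i = 1`, `j = s`, `N = 4 (s+1)`, `κ = cc 1 * cc s / cc (s+1) = 4 / rho s`: `MV n (s+1) ≤ 4 / rho s * C(n,s+1)`. And with `t = s + 3`: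
`C(n,t) t (t-1) = C(n,t-2) (n-t+2) (n-t+1)` (`Nat.choose_succ_right_eq` twice), `n - t + 2 ≥ 3 t + 2 = 3 s + 11`, `n - t + 1 ≥ 3 s + 10`. -/
def BG2_stmt : Prop := ∀ n s : ℕ, 1 ≤ s → 4 * (s + 3) ≤ n →
  (MV n (s + 1) : ℝ) ≤ 4 / rho (s : ℝ) *
    (((s : ℝ) + 3) * ((s : ℝ) + 2) / ((3 * (s : ℝ) + 11) * (3 * (s : ℝ) + 10))) * (n.choose (s + 3) : ℝ)

/-- **SMA** (short, finite check, from UNI of helper55/NK/Spec). By UNI it is enough to take `a = i (n+1)/t`, `b = n - a`, `n = a + b`, `t = i + j`; then `n < 110`, `t ≤ 11`: 1476 cases, all checked with Python. `Nat.choose` is slow in the kernel: prove with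
`decide +kernel` the statement with a fast binomial (for example `(n.descFactorial k) / k.factorial`, `Nat.choose_eq_descFactorial_div_factorial`), for all `t < 12`, `i < t`, `n < 110`. -/
def SMA_stmt : Prop := ∀ a b i j : ℕ, 2 ≤ i → 2 ≤ j → i + j ≤ 11 → 4 * (i + j) ≤ a + b → a + b < 10 * (i + j) →
  a.choose i * b.choose j + MV (a + b) (i + j - 2) ≤ MV (a + b) (i + j)

/-- **MO4** (short). As MON of helper55/NK/Spec (proof in Pool/Agent/helper35/NK/MON.lean, copy it): `q = (n+1)/s ≤ (n+1)/2`, so `n - q ≥ (n-1)/2`, `n - q ≥ 2 t` or at least `(n - q)/2 ≥ t - 1`, so `C(n-q,s-1) ≤ C(n-q,t-1)`, and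
`q C(n-q,t-1) ≤ MV n t` by `Pool.Agent.NK.Base.block_le` (Pool/Agent/helper55/NK/Base.lean). -/
def MO4_stmt : Prop := ∀ n s t : ℕ, 2 ≤ s → s ≤ t → 4 * t ≤ n → MV n s ≤ MV n t

/-- **CH4** (medium, from BIG, SMA, MO4, CHA of helper55/NK/Spec; `BIG` is the inequality below). Strong induction on `k`; `n = a + b`. `10 k ≤ n`: CHA. Otherwise: empty `C`: clear. Take the element `(i,j)` of `C` with the largest `c.1`; the others are strictly below
it in both coordinates (as in Pool/Agent/helper96/NK/CHA.lean). `i = 1` or `j = 1`: there are no others; `Pool.Agent.NK.Base.prod_le` and MO4. Else `t = i + j ≤ k`. If `10 t ≤ n`: CHA for `C` and `t` (all sums are at most `t`), then MO4. If `n < 10 t`: the others have sums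
at most `t - 2`, so (induction, `k' = t - 2 ≥ 2`) their sum is at most `MV n (t-2)`; SMA (`t ≤ 11`) or BIG (`t ≥ 12`), then MO4. -/
def CH4_stmt : Prop := ∀ (a b k : ℕ) (C : Finset (ℕ × ℕ)), 2 ≤ k → 4 * k ≤ a + b →
  (∀ c ∈ C, 1 ≤ c.1 ∧ 1 ≤ c.2 ∧ c.1 + c.2 ≤ k) → IsCh C →
  ∑ c ∈ C, a.choose c.1 * b.choose c.2 ≤ MV (a + b) k

/-- **BIG** (short, from BG1, BG2, NUM, LOW of helper55/NK/Spec). `s = i + j - 3 ≥ 9`, `n = a + b`: BG1 + BG2 give at most `(left side of NUM) * C(n,t) ≤ (1 - 1/t)^(t-1) C(n,t) ≤ MV n t`. -/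
def BIG_stmt : Prop := ∀ a b i j : ℕ, 2 ≤ i → 2 ≤ j → 12 ≤ i + j → 4 * (i + j) ≤ a + b →
  a.choose i * b.choose j + MV (a + b) (i + j - 2) ≤ MV (a + b) (i + j)

end Pool.Agent.helper37.NF
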