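import Pool.Agent.helper37.NF.Spec
import Pool.Agent.helper37.NK.K4

set_option autoImplicit false

namespace Pool.Agent.helper37.NF

open Finset Pool.Agent.NK

/-- The value `N(n,k) = M(n,k)` for `n ≥ 4k`. -/
theorem MAIN (hPER : PER_stmt) (hCH4 : CH4_stmt) (n k : ℕ) (hk : 1 ≤ k) (hkn : 4 * k ≤ n) :
    IsGreatest (Pool.Agent.helper37.NK.sizes n k)
      (if k = 1 then 0 else ((n + 1) / k) * (n - (n + 1) / k).choose (k - 1)) := by
  constructor
  · split_ifs with h1
    · refine ⟨∅, by simp, fun i => ?_, by simp⟩
      rw [Finset.coe_empty, Submodule.span_empty, Submodule.mem_bot]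
      intro h
      have := congrFun h i
      simp at this
    · exact Pool.Agent.helper37.NK.lowerM n k k (by omega) le_rfl (by omega)
  · apply Pool.Agent.helper37.NK.upper hPER
    intro a b hab C hC hch
    split_ifs with h1
    · have : C = ∅ := by
        apply Finset.eq_empty_of_forall_notMem
        intro c hc
        have := hC c hc
        omega
      rw [this]
      simp
    · have h := hCH4 a b k C (by omega) (by omega) hC hch
      rw [hab] at h
      exact h

end Pool.Agent.helper37.NF
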