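import Pool.Agent.helper55.NK.Fin
import Pool.Agent.helper37.NF.Main
import Pool.Agent.helper53.NF.AVG
import Pool.Agent.helper18.NF.BAS
import Pool.Agent.helper34.NF.REC
import Pool.Agent.helper50.NF.LCX2
import Pool.Agent.helper94.NF.NUM
import Pool.Agent.helper63.NF.BG1
import Pool.Agent.helper47.NF.BG2
import Pool.Agent.helper54.NF.SMA2
import Pool.Agent.helper66.NF.MO4
import Pool.Agent.helper67.NF.BIG
import Pool.Agent.helper77.NF.CH4

set_option autoImplicit false

namespace Pool.Agent.helper37.NF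

open Pool.Agent.NK

theorem BASf : BAS_stmt := BAS Pool.Agent.helper64.NK.UNI

theorem LCXf : LCX_stmt := LCX REC

theorem BIGf : BIG_stmt :=
  BIG (BG1 AVG BASf REC LCXf) (BG2 AVG BASf REC) (NUM Pool.Agent.helper47.NK.EXP) Pool.Agent.helper66.NK.LOW

theorem CH4f : CH4_stmt := CH4 BIGf (SMA Pool.Agent.helper64.NK.UNI) MO4 Pool.Agent.helper55.NK.CHAf

theorem ALL (n k : ℕ) (hk : 1 ≤ k) (hkn : 4 * k ≤ n) :
    IsGreatest (Pool.Agent.helper37.NK.sizes n k)
      (if k = 1 then 0 else ((n + 1) / k) * (n - (n + 1) / k).choose (k - 1)) :=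
  MAIN Pool.Agent.helper4.NK.PER CH4f n k hk hkn

end Pool.Agent.helper37.NF
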